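import Pool.Agent.Helper22.G4.Poly
import Pool.Agent.Helper52.G4.P1

/-! # G4-M1: from a conic graph to the algebraic conditions -/

namespace Pool.Agent.Helper41.G4

open Pool.Agent.Helper22.G4 Pool.Agent.Helper89 Pool.Agent.Helper91.PolyTime Submodule

/-- coordinates adapted to a functional. -/
lemma exists_coords (h : E5 →ₗ[ℝ] ℝ) (hh : h ≠ 0) :
    ∃ (x0 : E5) (b : Fin 4 → E5) (g : Fin 4 → E5 →ₗ[ℝ] ℝ), h x0 = 1 ∧ (∀ i, h (b i) = 0) ∧
      (∀ i j, g i (b j) = if j = i then 1 else 0) ∧ ∀ x, x = h x • x0 + ∑ i, g i x • b i := by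
  obtain ⟨y, hy⟩ : ∃ y, h y ≠ 0 := by
    by_contra hc
    push Not at hc
    exact hh (LinearMap.ext hc)
  have hx0 : h ((h y)⁻¹ • y) = 1 := by
    rw [map_smul, smul_eq_mul, inv_mul_cancel₀ hy]
  set x0 : E5 := (h y)⁻¹ • y with hx0d
  have hsurj : Function.Surjective h := fun t => ⟨t • x0, by rw [map_smul, hx0]; simp⟩
  have hfin : Module.finrank ℝ (LinearMap.ker h) = 4 := by
    have h1 := LinearMap.finrank_range_add_finrank_ker h
    rw [LinearMap.range_eq_top.mpr hsurj, finrank_top] at h1
    simp at h1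
    omega
  let bb : Module.Basis (Fin 4) ℝ (LinearMap.ker h) := Module.finBasisOfFinrankEq ℝ _ hfin
  let pr : E5 →ₗ[ℝ] LinearMap.ker h :=
    LinearMap.codRestrict (LinearMap.ker h) (LinearMap.id - h.smulRight x0) (fun x => by
      rw [LinearMap.mem_ker]
      simp [hx0])
  have hpr : ∀ x, ((pr x : LinearMap.ker h) : E5) = x - h x • x0 := fun x => rfl
  have hprb : ∀ z : LinearMap.ker h, pr z = z := by
    intro z
    apply Subtype.ext
    rw [hpr, LinearMap.mem_ker.mp z.2]
    simp
  refine ⟨x0, fun i => bb i, fun i => (bb.coord i) ∘ₗ pr, hx0, fun i => (bb i).2, ?_, ?_⟩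
  · intro i j
    rw [LinearMap.comp_apply, hprb, Module.Basis.coord_apply, Module.Basis.repr_self, Finsupp.single_apply]
  · intro x
    have h1 : (pr x : LinearMap.ker h) = ∑ i, (bb.coord i (pr x)) • bb i := by
      simp [Module.Basis.sum_repr]
    have h2 := congrArg (fun z : LinearMap.ker h => (z : E5)) h1
    simp only [hpr] at h2
    rw [Submodule.coe_sum] at h2
    simp only [Submodule.coe_smul] at h2
    simp only [LinearMap.comp_apply]
    rw [← h2]
    abel

/-- G4-M1 -/
theorem algCond_of_conic (n : ℕ) (adj : ℕ → ℕ → Prop)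
    (h : ConicGraph (Finset.range n) adj) : AlgCond n adj := by
  obtain ⟨c, hconf, hspan, hadj⟩ := h
  obtain ⟨h, hpos⟩ := hconf.pos
  have hne : h ≠ 0 := by
    rintro rfl
    have hA : Finset.range n = ∅ := by
      rw [Finset.eq_empty_iff_forall_notMem]
      intro w hw
      have := hpos w hw
      simp at this
    rw [hA] at hspan
    simp only [Finset.coe_empty, Set.image_empty, span_empty] at hspan
    exact bot_ne_top hspan
  obtain ⟨x0, b, g, hx0, hb, hgb, hx⟩ := exists_coords h hne
  have hpos' : ∀ w, w < n → 0 < h (c w) := fun w hw => hpos w (Finset.mem_range.mpr hw)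
  -- the points
  let p : ℕ → ℕ → ℝ := fun v i => if hi : i < 4 then g ⟨i, hi⟩ (c v) / h (c v) else 0
  have hp : ∀ v (i : Fin 4), p v i = g i (c v) / h (c v) := by
    intro v i
    simp [p]
  -- functionals
  have hF : ∀ (F : E5 →ₗ[ℝ] ℝ) (v : ℕ), v < n →
      F (c v) = h (c v) * (F x0 + ∑ i ∈ Finset.range 4, (if hi : i < 4 then F (b ⟨i, hi⟩) else 0) * p v i) := by
    intro F v hv
    have h0 := (hpos' v hv).ne'
    rw [Finset.sum_range]
    conv_lhs => rw [hx (c v)]
    rw [map_add, map_smul, map_sum, smul_eq_mul, mul_add]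
    congr 1
    rw [Finset.mul_sum]
    refine Finset.sum_congr rfl fun i _ => ?_
    rw [map_smul, smul_eq_mul, hp]
    simp only [Fin.is_lt, dite_true, Fin.eta]
    field_simp
  refine ⟨p, ?_, ?_, ?_, ?_⟩
  · intro v hv
    obtain ⟨-, F, hF1, hF2⟩ := hconf.vert v (Finset.mem_range.mpr hv)
    refine ⟨fun i => -(if hi : i < 4 then F (b ⟨i, hi⟩) else 0), ?_⟩
    intro w hw hwv
    have h1 : F (c v) = 0 := (hF2 v (Finset.mem_range.mpr hv)).mpr rfl
    have h2 : 0 < F (c w) := by
      refine lt_of_le_of_ne (hF1 w (Finset.mem_range.mpr hw)) ?_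
      intro h3
      exact hwv ((hF2 w (Finset.mem_range.mpr hw)).mp h3.symm)
    rw [hF F v hv] at h1
    rw [hF F w hw] at h2
    have h3 := (pos_iff_pos_of_mul_pos h2).mp (hpos' w hw)
    have h4 := (mul_eq_zero.mp h1).resolve_left (hpos' v hv).ne'
    simp only [neg_mul, Finset.sum_neg_distrib]
    linarith
  · intro u v huv hv ha
    have hu : u < n := lt_trans huv hv
    obtain ⟨-, F, hF1, hF2⟩ := (hadj u (Finset.mem_range.mpr hu) v (Finset.mem_range.mpr hv) huv.ne).mpr ha
    refine ⟨fun i => -(if hi : i < 4 then F (b ⟨i, hi⟩) else 0), ?_, ?_⟩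
    · have h1 : F (c v) = 0 := (hF2 v (Finset.mem_range.mpr hv)).mpr (by simp)
      have h1' : F (c u) = 0 := (hF2 u (Finset.mem_range.mpr hu)).mpr (by simp)
      rw [hF F v hv] at h1
      rw [hF F u hu] at h1'
      have h4 := (mul_eq_zero.mp h1).resolve_left (hpos' v hv).ne'
      have h4' := (mul_eq_zero.mp h1').resolve_left (hpos' u hu).ne'
      simp only [neg_mul, Finset.sum_neg_distrib]
      linarith
    · intro w hw hwu hwv
      have h1' : F (c u) = 0 := (hF2 u (Finset.mem_range.mpr hu)).mpr (by simp)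
      have h2 : 0 < F (c w) := by
        refine lt_of_le_of_ne (hF1 w (Finset.mem_range.mpr hw)) ?_
        intro h3
        have := (hF2 w (Finset.mem_range.mpr hw)).mp h3.symm
        simp only [Set.mem_insert_iff, Set.mem_singleton_iff] at this
        tauto
      rw [hF F u hu] at h1'
      rw [hF F w hw] at h2
      have h3 := (pos_iff_pos_of_mul_pos h2).mp (hpos' w hw)
      have h4 := (mul_eq_zero.mp h1').resolve_left (hpos' u hu).ne'
      simp only [neg_mul, Finset.sum_neg_distrib]
      linarith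
  · intro u v huv hv ha
    have hu : u < n := lt_trans huv hv
    have hnf : ¬ FaceOn c (Finset.range n) {u, v} := fun hf =>
      ha ((hadj u (Finset.mem_range.mpr hu) v (Finset.mem_range.mpr hv) huv.ne).mp hf)
    set O : Finset ℕ := (Finset.range n).filter (fun w => w ≠ u ∧ w ≠ v) with hO
    -- some `w0` is not separated
    obtain ⟨w0, hw0, hw0F⟩ : ∃ w0 ∈ O, ∀ f : E5 →ₗ[ℝ] ℝ, (∀ z < n, 0 ≤ f (c z)) → f (c u) = 0 → f (c v) = 0 →
        f (c w0) ≤ 0 := by
      by_contra hc
      push Not at hc
      choose! f hf1 hf2 hf3 hf4 using hc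
      apply hnf
      refine ⟨?_, ∑ w ∈ O, f w, ?_, ?_⟩
      · intro z hz
        simp only [Set.mem_insert_iff, Set.mem_singleton_iff] at hz
        rcases hz with rfl | rfl
        · simpa using hu
        · simpa using hv
      · intro w hw
        rw [LinearMap.sum_apply]
        exact Finset.sum_nonneg fun z hz => hf1 z hz w (Finset.mem_range.mp hw)
      · intro w hw
        rw [LinearMap.sum_apply]
        constructor
        · intro h0
          by_contra hwuv
          simp only [Set.mem_insert_iff, Set.mem_singleton_iff, not_or] at hwuv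
          have hwO : w ∈ O := by
            rw [hO, Finset.mem_filter]
            exact ⟨hw, hwuv⟩
          have : 0 < ∑ z ∈ O, (f z) (c w) :=
            Finset.sum_pos' (fun z hz => hf1 z hz w (Finset.mem_range.mp hw)) ⟨w, hwO, hf4 w hwO⟩
          linarith
        · intro hwuv
          simp only [Set.mem_insert_iff, Set.mem_singleton_iff] at hwuv
          apply Finset.sum_eq_zero
          intro z hz
          rcases hwuv with rfl | rfl
          · exact hf2 z hz
          · exact hf3 z hz
    have hw0' : w0 < n ∧ w0 ≠ u ∧ w0 ≠ v := by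
      rw [hO, Finset.mem_filter, Finset.mem_range] at hw0
      exact hw0
    -- Farkas
    let gen : ℕ ⊕ Bool → E5 := fun i => match i with
      | Sum.inl z => c z
      | Sum.inr true => - c u
      | Sum.inr false => - c v
    obtain ⟨B, hB0, hB⟩ : ∃ B : ℕ ⊕ Bool → ℝ, (∀ i ∈ (Finset.range n).disjSum (Finset.univ : Finset Bool), 0 ≤ B i) ∧
        - c w0 = ∑ i ∈ (Finset.range n).disjSum (Finset.univ : Finset Bool), B i • gen i := by
      rcases Pool.Agent.Helper52.G4.farkas ((Finset.range n).disjSum (Finset.univ : Finset Bool)) gen (- c w0) with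
        h1 | ⟨f, hf1, hf2⟩
      · exact h1
      · exfalso
        have e1 : ∀ z < n, 0 ≤ f (c z) := fun z hz =>
          hf1 (Sum.inl z) (Finset.inl_mem_disjSum.mpr (Finset.mem_range.mpr hz))
        have e2 : 0 ≤ f (- c u) := hf1 (Sum.inr true) (Finset.inr_mem_disjSum.mpr (Finset.mem_univ _))
        have e3 : 0 ≤ f (- c v) := hf1 (Sum.inr false) (Finset.inr_mem_disjSum.mpr (Finset.mem_univ _))
        rw [map_neg] at e2 e3 hf2
        have e4 := e1 u hu
        have e5 := e1 v hv
        have := hw0F f e1 (by linarith) (by linarith)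
        linarith
    rw [Finset.sum_disjSum] at hB
    simp only [Fintype.sum_bool, gen] at hB
    have hBz : ∀ z < n, 0 ≤ B (Sum.inl z) := fun z hz =>
      hB0 _ (Finset.inl_mem_disjSum.mpr (Finset.mem_range.mpr hz))
    -- split off `u` and `v`
    have hsplit : ∀ G : ℕ → E5, ∑ z ∈ Finset.range n, G z = ∑ z ∈ O, G z + (G u + G v) := by
      intro G
      have h1 := Finset.sum_filter_add_sum_filter_not (Finset.range n) (fun w => w ≠ u ∧ w ≠ v) G
      have h2 : (Finset.range n).filter (fun w => ¬ (w ≠ u ∧ w ≠ v)) = {u, v} := by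
        ext w
        simp only [Finset.mem_filter, Finset.mem_range, Finset.mem_insert, Finset.mem_singleton]
        constructor
        · rintro ⟨-, h3⟩
          tauto
        · rintro (rfl | rfl)
          · exact ⟨hu, by tauto⟩
          · exact ⟨hv, by tauto⟩
      rw [h2, Finset.sum_pair huv.ne] at h1
      exact h1.symm
    let μ : ℕ → ℝ := fun z => B (Sum.inl z) + if z = w0 then 1 else 0
    have hμ0 : ∀ z ∈ O, 0 ≤ μ z := by
      intro z hz
      rw [hO, Finset.mem_filter, Finset.mem_range] at hz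
      have := hBz z hz.1
      simp only [μ]
      split_ifs <;> linarith
    have hμw0 : 0 < μ w0 := by
      have := hBz w0 hw0'.1
      simp only [μ, if_true]
      linarith
    set α : ℝ := B (Sum.inr true) - B (Sum.inl u) with hα
    set β : ℝ := B (Sum.inr false) - B (Sum.inl v) with hβ
    have key : ∑ z ∈ O, μ z • c z = α • c u + β • c v := by
      have h1 : ∑ z ∈ O, μ z • c z = ∑ z ∈ O, B (Sum.inl z) • c z + c w0 := by
        simp only [μ, add_smul, Finset.sum_add_distrib]
        congr 1
        rw [Finset.sum_eq_single w0]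
        · simp
        · intro z _ hz
          simp [hz]
        · intro h; exact absurd hw0 h
      rw [hsplit] at hB
      rw [h1, hα, hβ, sub_smul, sub_smul]
      have h2 : c w0 = -(∑ x ∈ O, B (Sum.inl x) • c x + (B (Sum.inl u) • c u + B (Sum.inl v) • c v) +
          (B (Sum.inr true) • -c u + B (Sum.inr false) • -c v)) := by
        rw [← hB, neg_neg]
      rw [h2, smul_neg, smul_neg]
      abel
    have hsumpos : ∀ F : E5 →ₗ[ℝ] ℝ, (∀ z < n, 0 ≤ F (c z)) → 0 < F (c w0) → 0 < F (∑ z ∈ O, μ z • c z) := by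
      intro F h1 h2
      rw [map_sum]
      refine Finset.sum_pos' ?_ ⟨w0, hw0, ?_⟩
      · intro z hz
        rw [map_smul, smul_eq_mul]
        refine mul_nonneg (hμ0 z hz) (h1 z ?_)
        rw [hO, Finset.mem_filter, Finset.mem_range] at hz
        exact hz.1
      · rw [map_smul, smul_eq_mul]
        exact mul_pos hμw0 h2
    have hvert : ∀ v < n, ∃ F : E5 →ₗ[ℝ] ℝ, (∀ z < n, 0 ≤ F (c z)) ∧ F (c v) = 0 ∧ ∀ z < n, z ≠ v → 0 < F (c z) := by
      intro v hv
      obtain ⟨-, F, hF1, hF2⟩ := hconf.vert v (Finset.mem_range.mpr hv)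
      refine ⟨F, fun z hz => hF1 z (Finset.mem_range.mpr hz), (hF2 v (Finset.mem_range.mpr hv)).mpr rfl, ?_⟩
      intro z hz hzv
      refine lt_of_le_of_ne (hF1 z (Finset.mem_range.mpr hz)) ?_
      intro h3
      exact hzv ((hF2 z (Finset.mem_range.mpr hz)).mp h3.symm)
    have hαpos : 0 < α := by
      obtain ⟨F, h1, h2, h3⟩ := hvert v hv
      have h4 := hsumpos F h1 (h3 w0 hw0'.1 hw0'.2.2)
      rw [key, map_add, map_smul, map_smul, h2, smul_zero, add_zero, smul_eq_mul] at h4
      exact (pos_iff_pos_of_mul_pos h4).mpr (h3 u hu huv.ne)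
    have hβpos : 0 < β := by
      obtain ⟨F, h1, h2, h3⟩ := hvert u hu
      have h4 := hsumpos F h1 (h3 w0 hw0'.1 hw0'.2.1)
      rw [key, map_add, map_smul, map_smul, h2, smul_zero, zero_add, smul_eq_mul] at h4
      exact (pos_iff_pos_of_mul_pos h4).mpr (h3 v hv huv.ne')
    -- normalisation
    have hhu := hpos' u hu
    have hhv := hpos' v hv
    set T : ℝ := α * h (c u) + β * h (c v) with hT
    have hTpos : 0 < T := by positivity
    have hTsum : ∑ z ∈ O, μ z * h (c z) = T := by
      have h1 := congrArg h key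
      rw [map_sum, map_add, map_smul, map_smul] at h1
      simpa [smul_eq_mul] using h1
    let l : ℕ → ℝ := fun z => if z = u then α * h (c u) / T else if z = v then β * h (c v) / T else μ z * h (c z) / T
    have hlu : l u = α * h (c u) / T := by simp [l]
    have hlv : l v = β * h (c v) / T := by simp [l, huv.ne']
    have hlO : ∀ z ∈ O, l z = μ z * h (c z) / T := by
      intro z hz
      rw [hO, Finset.mem_filter] at hz
      simp [l, hz.2.1, hz.2.2]
    refine ⟨l, ?_, ?_, ?_, ?_⟩
    · intro w hw
      by_cases h1 : w = u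
      · rw [h1, hlu]; positivity
      by_cases h2 : w = v
      · rw [h2, hlv]; positivity
      have h3 : w ∈ O := by
        rw [hO, Finset.mem_filter, Finset.mem_range]; exact ⟨hw, h1, h2⟩
      rw [hlO w h3]
      have := hμ0 w h3
      have := (hpos' w hw).le
      positivity
    · rw [hlu, hlv, ← add_div, ← hT, div_self hTpos.ne']
    · rw [Finset.sum_congr rfl hlO, ← Finset.sum_div, hTsum, div_self hTpos.ne']
    · intro i hi
      have h1 := congrArg (g ⟨i, hi⟩) key
      rw [map_sum, map_add, map_smul, map_smul] at h1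
      simp only [map_smul, smul_eq_mul] at h1
      have hpv : ∀ z, p z i = g ⟨i, hi⟩ (c z) / h (c z) := fun z => hp z ⟨i, hi⟩
      rw [hlu, hlv, hpv, hpv]
      have h2 : ∑ w ∈ O, l w * p w i = (∑ z ∈ O, μ z * (g ⟨i, hi⟩) (c z)) / T := by
        rw [Finset.sum_div]
        refine Finset.sum_congr rfl fun z hz => ?_
        rw [hlO z hz, hpv]
        have hz' : z < n := by
          rw [hO, Finset.mem_filter, Finset.mem_range] at hz
          exact hz.1
        have := (hpos' z hz').ne'
        field_simp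
      rw [h2, h1]
      field_simp
  · intro i hi
    have h1 : b ⟨i, hi⟩ ∈ span ℝ (c '' ((Finset.range n : Finset ℕ) : Set ℕ)) := by
      rw [hspan]; exact mem_top
    rw [Submodule.mem_span_image_finset_iff_exists_fun'] at h1
    obtain ⟨a, ha⟩ := h1
    refine ⟨fun v => a v * h (c v), ?_, ?_⟩
    · have h2 := congrArg h ha
      rw [map_sum, hb] at h2
      simpa [smul_eq_mul] using h2
    · intro k hk
      have h2 := congrArg (g ⟨k, hk⟩) ha
      rw [map_sum, hgb] at h2
      simp only [map_smul, smul_eq_mul] at h2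
      have h3 : ∑ v ∈ Finset.range n, a v * h (c v) * p v k = ∑ v ∈ Finset.range n, a v * (g ⟨k, hk⟩) (c v) := by
        refine Finset.sum_congr rfl fun z hz => ?_
        have hpv : p z k = g ⟨k, hk⟩ (c z) / h (c z) := hp z ⟨k, hk⟩
        rw [hpv]
        have := (hpos z hz).ne'
        field_simp
      rw [h3, h2]
      simp only [Fin.mk.injEq]
      by_cases hik : k = i
      · simp [hik]
      · simp [hik, Ne.symm hik]

end Pool.Agent.Helper41.G4
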